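import Pool.Agent.W558.WT.Stms
import Pool.Agent.W305.WA.Bun

/-! # Project WT: the projective line bundle of an Artin-Schreier normal form, relative version -/

set_option autoImplicit false
set_option linter.unusedVariables false
set_option linter.unusedSectionVars false

universe u

open Polynomial Pool.Agent.W558 Pool.Agent.W498.Tor Pool.Agent.W85.WD Pool.Agent.W305.WA

namespace Pool.Agent.W369.WT

section top

variable {k L N : Type u} [Field k] [Field L] [Field N] [Algebra k L] [Algebra k N]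
  [Algebra L N] [IsScalarTower k L N] {T I : Type}

/-- Extension of tangent vectors with a given value at the coordinate. -/
lemma lift_TVc {A : Subalgebra k L} {y : N} (hy : Tr (A.map (em k L N)) y) {κ : Type u}
    [Field κ] [Algebra k κ] (φ : adj (A.map (em k L N)) y →ₐ[k] κ)
    (φ0 : A →ₐ[k] κ) (h0 : ∀ a : A, φ ⟨em k L N a, le_adj _ _ ⟨a, a.2, rfl⟩⟩ = φ0 a)
    (D : TV φ0) (c : κ) :
    ∃ E : TV φ, (∀ (a : L) (ha : a ∈ A) (h' : em k L N a ∈ adj (A.map (em k L N)) y),
      E.D ⟨em k L N a, h'⟩ = D.D ⟨a, ha⟩) ∧ ∀ h', E.D ⟨y, h'⟩ = c := by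
  let e := eqv (K := N) A
  let φ1 : A.map (em k L N) →ₐ[k] κ := φ.comp (Subalgebra.inclusion (le_adj _ y))
  have h2 : ∀ b, (φ0.comp e.symm.toAlgHom) b = φ1 b := by
    intro b
    obtain ⟨a, rfl⟩ := e.surjective b
    change φ0 (e.symm (e a)) = φ (Subalgebra.inclusion (le_adj _ y) (e a))
    rw [e.symm_apply_apply, ← h0]
    rfl
  obtain ⟨E, hE1, hE2⟩ := ext_pe hy φ φ1 (fun _ => rfl) ((D.restr e.symm.toAlgHom).cast h2) c
  refine ⟨E, ?_, hE2⟩
  intro a ha h'
  rw [hE1 (em k L N a) ⟨a, ha, rfl⟩ h', TV.cast_D, TV.restr_D]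
  congr 1
  apply e.injective
  change e (e.symm _) = _
  rw [e.apply_symm_apply]
  rfl

end top

theorem bun_main (hnorm : WD_norm.{u}) : WT_bun.{u} := by
  intro p _ k L N _ _ _ _ _ _ _ _ T I G _ _ M f n a h g Γ hN hF hFn hnp Z hZ hNf Q hQ
  classical
  have hp : p.Prime := Fact.out
  have hpz : (0 : ℤ) < (p : ℤ) := by exact_mod_cast hp.pos
  have hcN : CharP N p := charP_of_injective_algebraMap (algebraMap k N).injective p
  let m : I → ℤ := fun i => n i / (p : ℤ)
  let r : I → ℤ := fun i => n i % (p : ℤ)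
  have hnmr : ∀ i, n i = (p : ℤ) * m i + r i := fun i => (Int.mul_ediv_add_emod _ _).symm
  have hr0 : ∀ i, 0 ≤ r i := fun i => Int.emod_nonneg _ hpz.ne'
  have hrp : ∀ i, r i < p := fun i => Int.emod_lt_of_pos _ hpz
  have hm0 : ∀ i, m i ≤ 0 := fun i => ediv_nonpos hN.n0 i
  let y : T → N := fun t => yc Z (a t) (XM M m t)
  have hX : ∀ t, XM M m t ≠ 0 := XM_ne M m
  have hXN : ∀ t, algebraMap L N (XM M m t) ≠ 0 := fun t => (_root_.map_ne_zero _).2 (hX t)
  have hZa : ∀ b : L, Z - algebraMap L N b ≠ 0 := by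
    intro b h0
    apply hZ
    rw [sub_eq_zero.1 h0]
    exact isAlgebraic_algebraMap b
  have hy0 : ∀ t, y t ≠ 0 := fun t => div_ne_zero (hZa _) (hXN t)
  have hXy : ∀ t, algebraMap L N (XM M m t) * y t = Z - algebraMap L N (a t) := fun t =>
    mul_div_cancel₀ _ (hXN t)
  have htrL : ∀ t, Transcendental L (y t) := fun t => transcendental_yc hZ (hX t)
  obtain ⟨N0, hG⟩ := exists_BD (mapLM (K := N) M) (y := y) hy0
    (fun t => tr_of_transcendental (htrL t))
    (fun t t' => algebraMap L N (XM M m t / XM M m t'))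
    (fun t t' => algebraMap L N ((XM M m t / XM M m t') * ((a t - a t') / XM M m t)))
    (by
      intro t t'
      have h1 := hXN t
      have h2 := hXN t'
      change (Z - algebraMap L N (a t')) / algebraMap L N (XM M m t') =
        algebraMap L N (XM M m t / XM M m t') *
          ((Z - algebraMap L N (a t)) / algebraMap L N (XM M m t)) + _
      rw [map_mul, map_div₀, map_div₀, map_sub]
      field_simp
      ring)
    (fun t t' => map_BB2 M (XM_div_mem M m t t').2)
    (fun t t' => map_BB2 M (Subalgebra.mul_mem _ (XM_div_mem M m t t').2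
      (delta_mem' M hnorm hF hN t t')))
  -- membership in `Q`
  have hdeg : (X ^ p - X - C f : L[X]).natDegree = p := by
    have h1 : (X ^ p - X - C f : L[X]) = X ^ p - (X + C f) := by ring
    rw [h1]
    refine natDegree_sub_eq_left_of_natDegree_lt ?_ |>.trans (natDegree_X_pow p)
    rw [natDegree_X_pow]
    refine lt_of_le_of_lt (natDegree_add_C.le.trans natDegree_X_le) hp.one_lt
  have hnd : ∀ P' : L[X], P' ≠ 0 → P'.natDegree < p → ¬ ((X ^ p - X - C f : L[X]) ∣ P') := by
    intro P' h0 hd hdvd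
    have := Polynomial.natDegree_le_of_dvd hdvd h0
    rw [hdeg] at this
    omega
  have hnd1 : ¬ ((X ^ p - X - C f : L[X]) ∣ 1) := hnd 1 one_ne_zero (by
    rw [natDegree_one]; exact hp.pos)
  have hQL : ∀ l : L, algebraMap L N l ∈ Q := fun l => (hQ _).2 ⟨C l, 1, hnd1, by simp⟩
  have hQZ : Z ∈ Q := (hQ _).2 ⟨X, 1, hnd1, by simp⟩
  have hQi : ∀ b : L, (Z - algebraMap L N b)⁻¹ ∈ Q := fun b => (hQ _).2 ⟨1, X - C b,
    hnd _ (X_sub_C_ne_zero b) (by rw [natDegree_X_sub_C]; exact hp.one_lt), by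
      rw [map_sub, aeval_X, aeval_C, map_one, inv_mul_cancel₀ (hZa b)]⟩
  have hyQ : ∀ t, y t ∈ Q := by
    intro t
    change (Z - algebraMap L N (a t)) / algebraMap L N (XM M m t) ∈ Q
    rw [div_eq_mul_inv, ← map_inv₀]
    exact Q.mul_mem (Q.sub_mem hQZ (hQL _)) (hQL _)
  have hyQ' : ∀ t, (y t)⁻¹ ∈ Q := by
    intro t
    change ((Z - algebraMap L N (a t)) / algebraMap L N (XM M m t))⁻¹ ∈ Q
    rw [inv_div, div_eq_mul_inv]
    exact Q.mul_mem (hQL _) (hQi _)
  have hzQ : ∀ t b, zz (y t) b ∈ Q ∧ (zz (y t) b)⁻¹ ∈ Q := by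
    intro t b
    cases b
    · exact ⟨hyQ' t, by
        change (y t)⁻¹⁻¹ ∈ Q
        rw [inv_inv]; exact hyQ t⟩
    · exact ⟨hyQ t, hyQ' t⟩
  have hov : Ovr M (bunLM (mapLM (K := N) M) hG) (Prod.fst : T × Bool → T)
      (fun (o : Option I) (i0 : I) => (o.elim 0 (fun i => if i = i0 then 1 else 0) : ℤ)) := by
    refine ⟨?_, ?_, ?_⟩
    · rintro ⟨t, b⟩ z hz
      exact le_adj _ _ (mem_map_em hz)
    · rintro ⟨t, b⟩ i
      refine Eq.trans ?_ (prod_lx _ _ _ _).symm
      change algebraMap L N (M.x t i) = (zf (y t) b)⁻¹ ^ (0 : ℤ) *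
        ∏ j, (algebraMap L N (M.x t j)) ^ (if j = i then (1 : ℤ) else 0)
      rw [zpow_zero, one_mul, Finset.prod_eq_single i]
      · rw [if_pos rfl, zpow_one]
      · intro j _ hj
        rw [if_neg hj, zpow_zero]
      · intro hi
        exact absurd (Finset.mem_univ i) hi
    · rintro (_ | i) i0
      · exact le_rfl
      · change (0 : ℤ) ≤ if i = i0 then (1 : ℤ) else 0
        split_ifs <;> norm_num
  refine ⟨T × Bool, Option I, inferInstance, inferInstance, bunLM (mapLM (K := N) M) hG,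
    fun q => ly (y q.1) q.2, fun o => o.elim (p : ℤ) r, fun o => o.elim (-1) m,
    fun b o => o.elim 0 (Γ b), ⟨Prod.fst, fun o i0 => o.elim 0 (fun i => if i = i0 then 1 else 0),
    ⟨hov, hN.hA, ?_, ?_, ?_, ?_, ?_, ?_, ?_, ?_, ?_, ?_, ?_, ?_, ?_, ?_, ?_⟩⟩, ?_, ?_⟩
  · -- ce
    rintro (_ | i)
    · change (p : ℤ) = ∑ i0, (0 : ℤ) * n i0 - (p : ℤ) * (-1)
      simp
    · change r i = ∑ i0, (if i = i0 then (1 : ℤ) else 0) * n i0 - (p : ℤ) * m i
      have h1 : ∑ i0, (if i = i0 then (1 : ℤ) else 0) * n i0 = n i := by simp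
      rw [h1, hnmr i]
      ring
  · -- yA
    rintro ⟨t, b⟩
    cases b
    · exact Subalgebra.one_mem _
    · exact self_mem_adj _ _
  · rintro ⟨t, b⟩
    cases b
    · exact one_ne_zero
    · exact hy0 t
  · rintro ⟨t, b⟩
    refine adj_le ?_ (hzQ t b).1
    rintro _ ⟨z, _, rfl⟩
    exact hQL z
  · rintro ⟨t, b⟩ (_ | i)
    · change (zf (y t) b)⁻¹⁻¹ ∈ Q
      rw [inv_inv]
      cases b
      · exact hyQ t
      · exact Q.one_mem
    · change (algebraMap L N (M.x t i))⁻¹ ∈ Q
      rw [← map_inv₀]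
      exact hQL _
  · rintro ⟨t, b⟩
    cases b
    · change (1 : N)⁻¹ ∈ Q
      rw [inv_one]
      exact Q.one_mem
    · exact hyQ' t
  · -- m0
    rintro (_ | i)
    · change (-1 : ℤ) ≤ 0
      norm_num
    · exact hm0 i
  · -- cp
    rintro (_ | i)
    · exact le_rfl
    · exact (hrp i).le
  · -- cm
    rintro (_ | i) hi
    · change (-1 : ℤ) < 0
      norm_num
    · change 0 < r i at hi
      change m i < 0
      have h1 := hN.n0 i
      have h2 := hnmr i
      have h3 := hm0 i
      rcases h3.lt_or_eq with h4 | h4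
      · exact h4
      · rw [h4] at h2
        omega
  · -- the equation
    rintro ⟨t, b⟩
    have hz := zf_ne (hy0 t) b
    have e1 : ∏ o, (bunLM (mapLM (K := N) M) hG).x (t, b) o ^
        ((p : ℤ) * (fun o : Option I => o.elim (-1) m) o) =
        zf (y t) b ^ p * algebraMap L N (XM M m t) ^ p := by
      refine (prod_lx _ _ _ _).trans ?_
      congr 1
      · change (zf (y t) b)⁻¹ ^ ((p : ℤ) * (-1)) = _
        rw [inv_zpow', mul_neg_one, neg_neg, zpow_natCast]
      · rw [XM, map_prod, ← Finset.prod_pow]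
        refine Finset.prod_congr rfl fun i _ => ?_
        change (algebraMap L N (M.x t i)) ^ ((p : ℤ) * m i) = _
        rw [map_zpow₀, ← zpow_natCast, ← zpow_mul, mul_comm]
    have e2 : ∏ o, (bunLM (mapLM (K := N) M) hG).x (t, b) o ^
        ((fun o : Option I => o.elim (p : ℤ) r) o) =
        (zf (y t) b ^ p)⁻¹ * algebraMap L N (XM M r t) := by
      refine (prod_lx _ _ _ _).trans ?_
      congr 1
      · change (zf (y t) b)⁻¹ ^ (p : ℤ) = _
        rw [zpow_natCast, inv_pow]
      · rw [XM, map_prod]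
        refine Finset.prod_congr rfl fun i _ => ?_
        change (algebraMap L N (M.x t i)) ^ r i = _
        rw [map_zpow₀]
    have e3 : ∏ o, (bunLM (mapLM (K := N) M) hG).x (t, b) o ^
        (-((p : ℤ) - 1) * (fun o : Option I => o.elim (-1) m) o) =
        (zf (y t) b ^ p)⁻¹ * zf (y t) b *
          algebraMap L N (XM M (fun i => -((p : ℤ) - 1) * m i) t) := by
      refine (prod_lx _ _ _ _).trans ?_
      congr 1
      · change (zf (y t) b)⁻¹ ^ (-((p : ℤ) - 1) * (-1)) = _
        have e : -((p : ℤ) - 1) * (-1) = (p : ℤ) - 1 := by ring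
        rw [e, zpow_sub₀ (inv_ne_zero hz), zpow_natCast, zpow_one, inv_pow, div_inv_eq_mul]
      · rw [XM, map_prod]
        refine Finset.prod_congr rfl fun i _ => ?_
        change (algebraMap L N (M.x t i)) ^ (-((p : ℤ) - 1) * m i) = _
        rw [map_zpow₀]
    rw [e1, e2, e3]
    have h1 := hN.eq t
    rw [prod_split (p := p) _ (M.x0 t)] at h1
    change f = a t ^ p - a t + XM M m t ^ p * XM M r t * h t at h1
    have hB := congrArg (algebraMap L N) (XM_pow M (p := p) m t)
    rw [map_mul, map_pow] at hB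
    have h2 : zf (y t) b ^ p * ly (y t) b ^ p = y t ^ p := by
      rw [← mul_pow, zf_mul_ly]
    have h2' : zf (y t) b * ly (y t) b = y t := zf_mul_ly _ _
    have h3 : algebraMap L N (XM M m t) ^ p * y t ^ p = Z ^ p - algebraMap L N (a t) ^ p := by
      rw [← mul_pow, hXy, sub_pow_char]
    have h3' := hXy t
    have h4 : zf (y t) b ^ p * (zf (y t) b ^ p)⁻¹ = 1 := mul_inv_cancel₀ (pow_ne_zero _ hz)
    change Z ^ p - Z - algebraMap L N f = zf (y t) b ^ p * algebraMap L N (XM M m t) ^ p *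
      (ly (y t) b ^ p - (zf (y t) b ^ p)⁻¹ * zf (y t) b *
          algebraMap L N (XM M (fun i => -((p : ℤ) - 1) * m i) t) * ly (y t) b -
        (zf (y t) b ^ p)⁻¹ * algebraMap L N (XM M r t) * algebraMap L N (h t))
    rw [h1, map_add, map_sub, map_mul, map_mul, map_pow, map_pow]
    generalize algebraMap L N (XM M (fun i => -((p : ℤ) - 1) * m i) t) = B at hB ⊢
    generalize algebraMap L N (XM M m t) = x at hB h3 h3' ⊢
    generalize (zf (y t) b ^ p)⁻¹ = w at h4 ⊢
    linear_combination -h3 - x ^ p * h2 +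
      x ^ p * algebraMap L N (XM M r t) * algebraMap L N (h t) * h4 + h3' +
      x * h2' + zf (y t) b * ly (y t) b * hB + x ^ p * B * zf (y t) b * ly (y t) b * h4
  · rintro ⟨t, b⟩
    exact snc_ox ((mapLM (K := N) M).xA t) ((mapLM (K := N) M).snc t) (hy0 t) b
      ((hG.tr t).zz (hy0 t) b)
  · -- ri
    rintro ⟨t, b⟩ (_ | i) hx hi
    · cases b
      · right
        refine ⟨hpz, ?_⟩
        change (1 : N)⁻¹ ∈ _
        rw [inv_one]
        exact Subalgebra.one_mem _
      · exfalso
        apply hx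
        change (((1 : N)⁻¹)⁻¹) ∈ _
        rw [inv_inv]
        exact Subalgebra.one_mem _
    · left
      refine ⟨i, ?_, ?_⟩
      · rcases hi with hi | hi
        · change m i < 0 at hi
          have h2 := hnmr i
          have h3 := hrp i
          nlinarith
        · change r i < 0 at hi
          exact absurd hi (not_lt.2 (hr0 i))
      · change (0 : ℤ) < if i = i then (1 : ℤ) else 0
        rw [if_pos rfl]
        norm_num
  · -- lf
    rintro ⟨t, b⟩ κ _ _ φ v0
    cases b
    · obtain ⟨E, hE1, hE2⟩ := lift_TVc ((hG.tr t).zz (hy0 t) false) φ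
        (φ.comp (ci (hov.le (t, false)))) (fun _ => rfl) v0.D
        (φ ⟨zz (y t) false, self_mem_adj _ _⟩ * ∑ i, ((m i : ℤ) : κ) * v0.e i)
      refine ⟨⟨E, fun o => o.elim 0 (fun o => o.elim (∑ i, ((m i : ℤ) : κ) * v0.e i) v0.e), ?_⟩,
        ?_, ?_, ?_⟩
      · rintro (_ | _ | i) ho
        · change _ = _ * (0 : κ)
          rw [mul_zero]
          exact E.D_one
        · exact hE2 _
        · exact (hE1 (M.x t i) (M.xA t i) ho).trans (v0.hx i (M.xA t i))
      · intro z hz
        exact hE1 z hz _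
      · intro i0
        change ∑ o : Option I, (((o.elim 0 (fun i => if i = i0 then 1 else 0) : ℤ)) : κ) *
          (o.elim (∑ i, ((m i : ℤ) : κ) * v0.e i) v0.e : κ) = v0.e i0
        rw [Fintype.sum_option]
        simp
      · change (0 : κ) + ∑ o : Option I, (((o.elim (-1) m : ℤ)) : κ) *
          (o.elim (∑ i, ((m i : ℤ) : κ) * v0.e i) v0.e : κ) = 0
        rw [Fintype.sum_option]
        simp
    · obtain ⟨E, hE1, hE2⟩ := lift_TVc ((hG.tr t).zz (hy0 t) true) φ
        (φ.comp (ci (hov.le (t, true)))) (fun _ => rfl) v0.D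
        (φ ⟨zz (y t) true, self_mem_adj _ _⟩ * (-∑ i, ((m i : ℤ) : κ) * v0.e i))
      refine ⟨⟨E, fun o => o.elim (-∑ i, ((m i : ℤ) : κ) * v0.e i) (fun o => o.elim 0 v0.e), ?_⟩,
        ?_, ?_, ?_⟩
      · rintro (_ | _ | i) ho
        · exact hE2 _
        · change _ = _ * (0 : κ)
          rw [mul_zero]
          have e : (⟨(bunLM (mapLM (K := N) M) hG).x (t, true) none, ho⟩ :
              (bunLM (mapLM (K := N) M) hG).A (t, true)) = 1 := Subtype.ext inv_one
          exact (congrArg E.D e).trans E.D_one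
        · exact (hE1 (M.x t i) (M.xA t i) ho).trans (v0.hx i (M.xA t i))
      · intro z hz
        exact hE1 z hz _
      · intro i0
        change ∑ o : Option I, (((o.elim 0 (fun i => if i = i0 then 1 else 0) : ℤ)) : κ) *
          (o.elim 0 v0.e : κ) = v0.e i0
        rw [Fintype.sum_option]
        simp
      · change (-∑ i, ((m i : ℤ) : κ) * v0.e i : κ) + ∑ o : Option I,
          (((o.elim (-1) m : ℤ)) : κ) * (o.elim 0 v0.e : κ) = 0
        rw [Fintype.sum_option]
        simp
  · -- vt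
    rintro ⟨t, b⟩ κ _ _ φ
    cases b
    · left
      change (1 : N)⁻¹ ∈ _
      rw [inv_one]
      exact Subalgebra.one_mem _
    · right
      obtain ⟨E, hE1, hE2⟩ := vert_TV ((hG.tr t).zz (hy0 t) true) φ 1
      refine ⟨E, ?_, ?_, ?_⟩
      · intro h0
        exact one_ne_zero ((hE2 (self_mem_adj _ _)).symm.trans h0)
      · rintro (_ | i)
        · have e : (⟨(bunLM (mapLM (K := N) M) hG).x (t, true) none,
              (bunLM (mapLM (K := N) M) hG).xA (t, true) none⟩ :
              (bunLM (mapLM (K := N) M) hG).A (t, true)) = 1 := Subtype.ext inv_one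
          rw [e]
          exact E.D_one
        · exact hE1 (M.x t i) (M.xA t i) _
      · intro z hz
        exact hE1 z hz _
  · -- vl
    rintro ⟨t, b⟩ κ _ _ φ
    have hcK : CharP κ p := charP_of_injective_algebraMap (algebraMap k κ).injective p
    cases b
    · obtain ⟨E, hE1, hE2⟩ := vert_TV ((hG.tr t).zz (hy0 t) false) φ
        (-φ ⟨zz (y t) false, self_mem_adj _ _⟩)
      refine ⟨⟨E, fun o => o.elim 0 (fun o => o.elim (-1) fun _ => 0), ?_⟩, ?_, ?_, ?_⟩
      · rintro (_ | _ | i) ho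
        · change _ = _ * (0 : κ)
          rw [mul_zero]
          exact E.D_one
        · change _ = _ * (-1 : κ)
          rw [mul_neg_one]
          exact hE2 _
        · change _ = _ * (0 : κ)
          rw [mul_zero]
          exact hE1 (M.x t i) (M.xA t i) _
      · intro z hz
        exact hE1 z hz _
      · intro i0
        change ∑ o : Option I, (((o.elim 0 (fun i => if i = i0 then 1 else 0) : ℤ)) : κ) *
          (o.elim (-1) fun _ => 0 : κ) = 0
        rw [Fintype.sum_option]
        simp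
      · change (0 : κ) + ∑ o : Option I, (((o.elim (-1) m : ℤ)) : κ) *
          (o.elim (-1) fun _ => 0 : κ) = 1
        rw [Fintype.sum_option]
        simp
    · obtain ⟨E, hE1, hE2⟩ := vert_TV ((hG.tr t).zz (hy0 t) true) φ
        (φ ⟨zz (y t) true, self_mem_adj _ _⟩)
      refine ⟨⟨E, fun o => o.elim 1 (fun _ => 0), ?_⟩, ?_, ?_, ?_⟩
      · rintro (_ | _ | i) ho
        · change _ = _ * (1 : κ)
          rw [mul_one]
          exact hE2 _
        · change _ = _ * (0 : κ)
          rw [mul_zero]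
          have e : (⟨(bunLM (mapLM (K := N) M) hG).x (t, true) none, ho⟩ :
              (bunLM (mapLM (K := N) M) hG).A (t, true)) = 1 := Subtype.ext inv_one
          exact (congrArg E.D e).trans E.D_one
        · change _ = _ * (0 : κ)
          rw [mul_zero]
          exact hE1 (M.x t i) (M.xA t i) _
      · intro z hz
        exact hE1 z hz _
      · intro i0
        change ∑ o : Option I, (((o.elim 0 (fun i => if i = i0 then 1 else 0) : ℤ)) : κ) *
          (0 : κ) = 0
        simp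
      · change (1 : κ) + ∑ o : Option I, (((o.elim (-1) m : ℤ)) : κ) * (0 : κ) = 1
        simp
  · -- fractions
    rintro ⟨t, b⟩ q hq
    change ∃ α ∈ adj ((M.A t).map (em k L N)) (zz (y t) b),
      ∃ β ∈ adj ((M.A t).map (em k L N)) (zz (y t) b), β ≠ 0 ∧ β⁻¹ ∈ Q ∧ q * β = α
    set A' : Subalgebra k N := adj ((M.A t).map (em k L N)) (zz (y t) b)
    have hWL : ∀ l : L, Wf A' Q (algebraMap L N l) := by
      intro l
      obtain ⟨c, hc, d, hd, hd0, h1⟩ := hF t l
      refine ⟨algebraMap L N d, le_adj _ _ (mem_map_em hd), (_root_.map_ne_zero _).2 hd0, ?_, ?_⟩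
      · rw [← map_inv₀]; exact hQL _
      · rw [← map_mul, h1, mul_comm, mul_assoc, inv_mul_cancel₀ hd0, mul_one]
        exact le_adj _ _ (mem_map_em hc)
    have hWy : Wf A' Q (y t) := by
      cases b
      · refine ⟨(y t)⁻¹, self_mem_adj _ _, inv_ne_zero (hy0 t), ?_, ?_⟩
        · rw [inv_inv]; exact hyQ t
        · rw [inv_mul_cancel₀ (hy0 t)]
          exact A'.one_mem
      · refine ⟨1, A'.one_mem, one_ne_zero, ?_, ?_⟩
        · rw [inv_one]; exact Q.one_mem
        · rw [one_mul]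
          exact self_mem_adj _ _
    have hWZ : Wf A' Q Z := by
      have e : Z = algebraMap L N (XM M m t) * y t + algebraMap L N (a t) := by
        rw [hXy, sub_add_cancel]
      rw [e]
      exact ((hWL _).mul hWy).add (hWL _)
    obtain ⟨P, P', hP', h1⟩ := (hQ q).1 hq
    obtain ⟨d, hd, hd0, hdi, h2⟩ := Wf.aeval hWL hWZ P
    obtain ⟨e, he, he0, hei, h3⟩ := Wf.aeval hWL hWZ P'
    have hP0 : P' ≠ 0 := by
      rintro rfl
      exact hP' (dvd_zero _)
    have hZP : Polynomial.aeval Z P' ≠ 0 := fun h0 => hP0 (transcendental_iff.1 hZ _ h0)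
    refine ⟨e * (d * Polynomial.aeval Z P), A'.mul_mem he h2,
      d * (e * Polynomial.aeval Z P'), A'.mul_mem hd h3,
      mul_ne_zero hd0 (mul_ne_zero he0 hZP), ?_, ?_⟩
    · rw [mul_inv, mul_inv]
      refine Q.mul_mem hdi (Q.mul_mem hei ((hQ _).2 ⟨1, P', hP', ?_⟩))
      rw [inv_mul_cancel₀ hZP, map_one]
    · rw [← h1]; ring
  · rintro b ⟨t, c⟩
    obtain ⟨w, hw0, hw, hw', h1⟩ := hFn b t
    refine ⟨algebraMap L N w, (_root_.map_ne_zero _).2 hw0, le_adj _ _ (mem_map_em hw), ?_, ?_⟩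
    · rw [← map_inv₀]
      exact le_adj _ _ (mem_map_em hw')
    · refine Eq.trans ?_ (congrArg _ (prod_lx _ _ _ _).symm)
      change algebraMap L N (g b) = algebraMap L N w *
        ((zf (y t) c)⁻¹ ^ (0 : ℤ) * ∏ i, (algebraMap L N (M.x t i)) ^ (Γ b i))
      rw [h1, map_mul, map_prod, zpow_zero, one_mul]
      congr 1
      exact Finset.prod_congr rfl fun i _ => map_zpow₀ _ _ _

end Pool.Agent.W369.WT
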