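import Pool.Agent.W369.WT.PCutL

/-!
# Restriction of a model to the divisor of `F`, relative version
-/

set_option autoImplicit false
set_option linter.unusedVariables false
set_option linter.unusedSectionVars false

universe u

open Polynomial

namespace Pool.Agent.W369.WT

open Pool.Agent.W558 Pool.Agent.W973.CUT Pool.Agent.W973.CUT2 Pool.Agent.W177.WD
open Pool.Agent.W174.WA

section lift

variable {k L N K : Type u} [Field k] [Field L] [Field N] [Field K] [Algebra k L] [Algebra k N]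
  [Algebra L N] [IsScalarTower k L N] [Algebra k K] [Algebra L K] [IsScalarTower k L K]
  {T0 I0 T I : Type} [Fintype I0] [Fintype I] {Q : Subalgebra k N}

/-- The lift of logarithmic tangent vectors, on a chart. -/
lemma lift_chart (p : ℕ) [Fact p.Prime] [CharP k p] (B : LM (⊥ : Subalgebra k L) ⊤ T0 I0)
    (M : LM (⊥ : Subalgebra k N) ⊤ T I) (F : N) (y : T → N) (π0 : T → T0)
    (Θ : I → I0 → ℤ) (h0 : T0 → L) (n0 : I0 → ℤ) (c μ : I → ℤ)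
    (hA : ∀ t, algebraMap L N (h0 (π0 t)) ∈ M.A t)
    (hPT : PAT p B M π0 Θ F Q y h0 n0 c μ) (π : Q →ₐ[k] K)
    (hcomp : ∀ l, algebraMap L N l ∈ Q → pq π (algebraMap L N l) = algebraMap L K l)
    (t : T) (f : N) (hfA : f ∈ M.A t) (hf0 : f ≠ 0) (hfπ : pq π f = 0)
    (hker : LK π (M.A t) f)
    (hv2 : ∀ (κ : Type u) [Field κ] [Algebra k κ] (φ : M.A t →ₐ[k] κ),
        φ ⟨f, hfA⟩ = 0 → ∀ v : LT φ (ox (y t) (M.x t)),
          v.e none + ∑ i, (μ i : κ) * v.e (some i) = 0 →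
          ((∃ i0, n0 i0 < 0 ∧
            φ ⟨algebraMap L N (B.x (π0 t) i0), hPT.ov.le t _ (B.xA (π0 t) i0)⟩ = 0) →
            om v (fun o => o.elim 0 c) (hA t) = 0) →
          v.D.D ⟨f, hfA⟩ = 0 ∨ VT B M t (π0 t) (hPT.ov.le t) Θ φ ⟨f, hfA⟩)
    (A' : Subalgebra k K) (x' : I → K) (hA' : A' = im π (M.A t) (hPT.AQ t))
    (hx' : x' = fun i => pq π (M.x t i))
    (le' : ∀ a ∈ B.A (π0 t), algebraMap L K a ∈ A')
    (κ : Type u) [Field κ] [Algebra k κ] (φ' : A' →ₐ[k] κ)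
    (v0 : LT (φ'.comp (ci le')) (B.x (π0 t)))
    (hv0 : (∃ i, n0 i < 0 ∧ φ' ⟨algebraMap L K (B.x (π0 t) i), le' _ (B.xA (π0 t) i)⟩ = 0) →
      om v0 n0 (hPT.hA (π0 t)) = 0) :
    ∃ v' : LT φ' x',
      (∀ a (ha : a ∈ B.A (π0 t)), v'.D.D ⟨algebraMap L K a, le' a ha⟩ = v0.D.D ⟨a, ha⟩) ∧
      ∀ i, ∑ i', (Θ i' i : κ) * v'.e i' = v0.e i := by
  subst hA' hx'
  have hp0 : (p : κ) = 0 := Pool.Agent.W177.WD.cast_zero (k := k) p κ
  let φ : M.A t →ₐ[k] κ := φ'.comp (qm π (M.A t) (hPT.AQ t))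
  have hφ : ∀ a (ha : a ∈ M.A t), φ ⟨a, ha⟩ = φ' ⟨pq π a, pq_mem π (hPT.AQ t) ha⟩ := by
    intro a ha
    change φ' (qm π (M.A t) (hPT.AQ t) ⟨a, ha⟩) = _
    rw [qm_apply π (hPT.AQ t) ha]
  have hφL : ∀ a (ha : a ∈ B.A (π0 t)), φ ⟨algebraMap L N a, hPT.ov.le t a ha⟩ =
      φ' ⟨algebraMap L K a, le' a ha⟩ := by
    intro a ha
    rw [hφ]
    exact congrArg φ' (Subtype.ext (hcomp a (hPT.AQ t (hPT.ov.le t a ha))))
  let w0 : LT (φ.comp (ci (hPT.ov.le t))) (B.x (π0 t)) :=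
    ⟨v0.D.cast (fun a => (hφL a a.2).symm), v0.e, fun i hi => by
      refine (v0.hx i hi).trans ?_
      congr 1
      exact (hφL _ hi).symm⟩
  obtain ⟨v, hv1, hvΘ, hvμ⟩ := hPT.lf t κ φ w0
  have hfφ : φ ⟨f, hfA⟩ = 0 := by
    rw [hφ]
    have : (⟨pq π f, pq_mem π (hPT.AQ t) hfA⟩ : im π (M.A t) (hPT.AQ t)) = 0 := Subtype.ext hfπ
    rw [this, map_zero]
  have hom : om v (fun o => o.elim 0 c) (hA t) = om v0 n0 (hPT.hA (π0 t)) := by
    have e1 : v.D.D ⟨algebraMap L N (h0 (π0 t)), hA t⟩ = v0.D.D ⟨h0 (π0 t), hPT.hA (π0 t)⟩ :=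
      hv1 _ (hPT.hA (π0 t))
    have e2 : φ ⟨algebraMap L N (h0 (π0 t)), hA t⟩ =
        (φ'.comp (ci le')) ⟨h0 (π0 t), hPT.hA (π0 t)⟩ := hφL _ (hPT.hA (π0 t))
    rw [om, om, Fintype.sum_option]
    simp only [Option.elim_none, Option.elim_some, Int.cast_zero, zero_mul, zero_add]
    rw [sumc p hp0 c μ n0 Θ hPT.ce, e1, e2]
    congr 2
    exact Finset.sum_congr rfl fun i0 _ => by rw [hvΘ i0]
  have key : ∃ w : LT φ (M.x t), w.D.D ⟨f, hfA⟩ = 0 ∧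
      (∀ a (ha : a ∈ B.A (π0 t)),
        w.D.D ⟨algebraMap L N a, hPT.ov.le t a ha⟩ = v0.D.D ⟨a, ha⟩) ∧
      ∀ i0, ∑ i, (Θ i i0 : κ) * w.e i = v0.e i0 := by
    have hpo : ((∃ i0, n0 i0 < 0 ∧
        φ ⟨algebraMap L N (B.x (π0 t) i0), hPT.ov.le t _ (B.xA (π0 t) i0)⟩ = 0) →
        om v (fun o => o.elim 0 c) (hA t) = 0) := by
      rintro ⟨i0, hi0, hi1⟩
      rw [hom]
      refine hv0 ⟨i0, hi0, ?_⟩
      rw [← hφL _ (B.xA (π0 t) i0)]
      exact hi1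
    rcases hv2 κ φ hfφ v hvμ hpo with h | ⟨v1, h1, h2, h3⟩
    · exact ⟨drp v, h, hv1, hvΘ⟩
    · refine ⟨⟨TV.comb 1 (-(v.D.D ⟨f, hfA⟩ / v1.D.D ⟨f, hfA⟩)) v.D v1.D,
        fun i => v.e (some i) + (-(v.D.D ⟨f, hfA⟩ / v1.D.D ⟨f, hfA⟩)) * v1.e i, ?_⟩, ?_, ?_, ?_⟩
      · intro i hi
        have e1 : v.D.D ⟨M.x t i, hi⟩ = φ ⟨M.x t i, hi⟩ * v.e (some i) := v.hx (some i) hi
        rw [TV.comb_D, v1.hx i hi, e1]
        ring
      · change (TV.comb 1 (-(v.D.D ⟨f, hfA⟩ / v1.D.D ⟨f, hfA⟩)) v.D v1.D).D ⟨f, hfA⟩ = 0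
        rw [TV.comb_D, one_mul, neg_mul, div_mul_cancel₀ _ h1, add_neg_cancel]
      · intro a ha
        change (TV.comb 1 (-(v.D.D ⟨f, hfA⟩ / v1.D.D ⟨f, hfA⟩)) v.D v1.D).D _ = _
        rw [TV.comb_D, h2 a ha, mul_zero, add_zero, one_mul]
        exact hv1 a ha
      · intro i0
        change ∑ i, (Θ i i0 : κ) * (v.e (some i) +
          (-(v.D.D ⟨f, hfA⟩ / v1.D.D ⟨f, hfA⟩)) * v1.e i) = v0.e i0
        generalize (-(v.D.D ⟨f, hfA⟩ / v1.D.D ⟨f, hfA⟩)) = s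
        have e1 : ∑ i, (Θ i i0 : κ) * (v.e (some i) + s * v1.e i) =
            ∑ i, (Θ i i0 : κ) * v.e (some i) + s * ∑ i, (Θ i i0 : κ) * v1.e i := by
          rw [Finset.mul_sum, ← Finset.sum_add_distrib]
          exact Finset.sum_congr rfl fun i _ => by ring
        rw [e1, h3 i0, mul_zero, add_zero]
        exact hvΘ i0
  obtain ⟨w, hw0, hw1, hw2⟩ := key
  obtain ⟨E, hE⟩ := desc2 π (hPT.AQ t) hfA hf0 hfπ hker φ' w.D hw0
  refine ⟨⟨E, w.e, ?_⟩, ?_, hw2⟩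
  · intro i hi
    refine (hE _ (M.xA t i)).trans ?_
    rw [w.hx i (M.xA t i)]
    congr 1
    exact hφ _ _
  · intro a ha
    have e : (⟨algebraMap L K a, le' a ha⟩ : im π (M.A t) (hPT.AQ t)) =
        ⟨pq π (algebraMap L N a), pq_mem π (hPT.AQ t) (hPT.ov.le t a ha)⟩ :=
      Subtype.ext (hcomp a (hPT.AQ t (hPT.ov.le t a ha))).symm
    change E.D ⟨algebraMap L K a, le' a ha⟩ = _
    rw [e, hE _ (hPT.ov.le t a ha)]
    exact hw1 a ha

end lift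

theorem pcut_main (hpas : WT_pas.{u}) : WT_pcut.{u} := by
  intro p _ k L N K _ _ _ _ _ _ _ _ _ _ _ _ _ T0 I0 T I G _ _ _ B f' n0 a0 h0 M F Q y c μ g Γ
    hN hPX hLq hFn hF2 hFQ hF0 π hπ hsurj hQ hcomp0
  classical
  have hloc : S2_loc.{u} := loc_main
  have hT := nonempty_T M
  obtain ⟨h, r, hPS0⟩ := hpas p k L N T0 I0 T I B f' n0 a0 h0 M F Q y c μ hN hPX
  obtain ⟨π0, Θ, hPT⟩ := hPX
  have hh : h = fun t => algebraMap L N (h0 (π0 t)) := by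
    funext t
    have h1 := hPS0.eq t
    have h2 := hPT.eq t
    have hp1 : ∏ i, M.x t i ^ ((p : ℤ) * μ i) ≠ 0 :=
      Finset.prod_ne_zero_iff.2 fun i _ => zpow_ne_zero _ (M.x0 t i)
    have hp2 : ∏ i, M.x t i ^ c i ≠ 0 :=
      Finset.prod_ne_zero_iff.2 fun i _ => zpow_ne_zero _ (M.x0 t i)
    rw [h2] at h1
    have h3 := mul_left_cancel₀ hp1 h1
    exact (mul_left_cancel₀ hp2 (sub_right_injective h3)).symm
  subst hh
  have hcomp : ∀ l, algebraMap L N l ∈ Q → pq π (algebraMap L N l) = algebraMap L K l := by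
    intro l hl
    rw [pq_of π hl]
    exact hcomp0 l hl
  have hAQ := hPT.AQ
  choose f hfA u hu0 huQ huQ' hFu hv hv2 using
    chart2 p B M F Q y r π0 Θ h0 n0 c μ hPS0 hPT hF2
  have hf0 : ∀ t, f t ≠ 0 := by
    intro t h0
    apply hF0
    rw [hFu t, h0, mul_zero]
  have hFπ : pq π F = 0 := by
    rw [pq_of π hFQ, hπ]
    exact ⟨1, Q.one_mem, (mul_one F).symm⟩
  have hfπ : ∀ t, pq π (f t) = 0 := by
    intro t
    have h1 : f t = (u t)⁻¹ * F := by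
      rw [hFu t, ← mul_assoc, inv_mul_cancel₀ (hu0 t), one_mul]
    rw [h1, pq_mul π (huQ' t) hFQ, hFπ, mul_zero]
  have hker0 : ∀ a ∈ Q, pq π a = 0 → ∃ r ∈ Q, a = F * r := by
    intro a ha h0
    rw [pq_of π ha, hπ] at h0
    exact h0
  have hmin : ∀ t, RingHom.ker (qm π (M.A t) (hAQ t)) ∈
      (Ideal.span {(⟨f t, hfA t⟩ : M.A t)}).minimalPrimes := by
    intro t
    refine ⟨⟨RingHom.ker_isPrime _, ?_⟩, ?_⟩
    · rw [Ideal.span_singleton_le_iff_mem, RingHom.mem_ker, qm_apply π (hAQ t) (hfA t)]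
      exact Subtype.ext (hfπ t)
    · rintro P'' ⟨hp'', hle''⟩ hPle ⟨a, ha⟩ haker
      have ha0 : pq π a = 0 := by
        rw [RingHom.mem_ker, qm_apply π (hAQ t) ha] at haker
        exact congrArg Subtype.val haker
      obtain ⟨r, hr, har⟩ := hker0 a (hAQ t ha) ha0
      obtain ⟨α, hα, β, hβ, hβ0, hβQ, hαβ⟩ := hLq t (u t * r) (Q.mul_mem (huQ t) hr)
      have h3 : (⟨β, hβ⟩ : M.A t) * ⟨a, ha⟩ = ⟨f t, hfA t⟩ * ⟨α, hα⟩ := by
        apply Subtype.ext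
        change β * a = f t * α
        rw [har, ← hαβ, hFu t]
        ring
      have h4 : (⟨β, hβ⟩ : M.A t) * ⟨a, ha⟩ ∈ P'' := by
        rw [h3]
        exact P''.mul_mem_right _ (hle'' (Ideal.mem_span_singleton_self _))
      rcases hp''.mem_or_mem h4 with h5 | h5
      · exfalso
        have h6 := hPle h5
        rw [RingHom.mem_ker, qm_apply π (hAQ t) hβ] at h6
        exact pq_ne π hβ0 (hAQ t hβ) hβQ (congrArg Subtype.val h6)
      · exact h5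
  have hv0 : ∀ t (κ : Type u) [Field κ] [Algebra k κ] (φ : M.A t →ₐ[k] κ),
      φ ⟨f t, hfA t⟩ = 0 → ∃ D : TV φ, D.D ⟨f t, hfA t⟩ ≠ 0 := by
    intro t κ _ _ φ hφ
    obtain ⟨δ, h1, -⟩ := hv t κ φ (hfA t) hφ
    exact ⟨δ, h1⟩
  have hker : ∀ t, LK π (M.A t) (f t) := by
    intro t m' hm' hPm'
    have hsm := M.sm t
    have hsq : Algebra.Smooth k (M.A t ⧸ Ideal.span {(⟨f t, hfA t⟩ : M.A t)}) :=
      smooth_quot _ (hv0 t)
    obtain ⟨e, he, h1⟩ := local_ker hloc (k := k) (⟨f t, hfA t⟩ : M.A t)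
      (RingHom.ker (qm π (M.A t) (hAQ t))) m' (hmin t) hm' (by
        rintro ⟨a, ha⟩ haker
        rw [RingHom.mem_ker, qm_apply π (hAQ t) ha] at haker
        exact hPm' a ha (congrArg Subtype.val haker))
    refine ⟨e, he, fun a ha h0 => ?_⟩
    obtain ⟨b', hb'⟩ := h1 ⟨a, ha⟩ (by
      rw [RingHom.mem_ker, qm_apply π (hAQ t) ha]
      exact Subtype.ext h0)
    have h2 : (e : N) * a = f t * b' := congrArg Subtype.val hb'
    rw [h2, mul_div_cancel_left₀ _ (hf0 t)]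
    exact b'.2
  have hsm' : ∀ t, Algebra.Smooth k (im π (M.A t) (hAQ t)) := by
    intro t
    have := M.sm t
    exact smooth_im2 π hloc (hAQ t) (hfA t) (hfπ t) (hmin t) (hv0 t)
  have hK' : ∀ x : N, (∃ a b : Q, π b ≠ 0 ∧ x * b = a) ∨ (∃ a b : Q, π b ≠ 0 ∧ x⁻¹ * b = a) := by
    intro x
    rcases hQ x with h1 | h1
    · left
      exact ⟨⟨x, h1⟩, 1, by rw [map_one]; exact one_ne_zero, by simp⟩
    · right
      exact ⟨⟨x⁻¹, h1⟩, 1, by rw [map_one]; exact one_ne_zero, by simp⟩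
  obtain ⟨M', hA', hx'⟩ := exists_model2 π hK' M hAQ hPT.xQ f hfA hf0 hfπ hker hsm'
    (fun t => snc_option M t (f t) (hfA t) (hv t))
  have hA't : ∀ t, M'.A t = im π (M.A t) (hAQ t) := fun t => congrFun hA' t
  have hx't : ∀ t, M'.x t = fun i => pq π (M.x t i) := fun t => congrFun hx' t
  have hgQ : ∀ b, algebraMap L N (g b) ∈ Q := by
    intro b
    obtain ⟨t⟩ := hT
    obtain ⟨w, h0, h1, h2, h3⟩ := hFn b t
    change algebraMap L N (g b) = _ at h3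
    rw [h3]
    exact Q.mul_mem (hAQ t h1) (Q.prod_mem fun i _ =>
      zpow_mem_of (hAQ t (M.xA t i)) (Or.inr (hPT.xQ t i)))
  have ho : Ovr B M' π0 Θ := by
    refine ⟨?_, ?_, hPT.ov.Θ0⟩
    · intro t a ha
      have h1 := hPT.ov.le t a ha
      rw [hA't, ← hcomp a (hAQ t h1)]
      exact pq_mem π (hAQ t) h1
    · intro t i0
      have h1 := hPT.ov.le t _ (B.xA (π0 t) i0)
      rw [← hcomp _ (hAQ t h1), hPT.ov.x t i0, hx't]
      have h4 : ∀ i, M.x t i ^ Θ i i0 ∈ Q := fun i =>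
        zpow_mem_of (hAQ t (M.xA t i)) (Or.inr (hPT.xQ t i))
      rw [pq_prod π _ _ fun i _ => h4 i]
      refine Finset.prod_congr rfl fun i _ => ?_
      exact pq_zpow π (M.x0 t i) (hAQ t (M.xA t i)) (hPT.xQ t i) _
  refine ⟨T, I, inferInstance, inferInstance, M', π0, Θ, ho, Γ, ?_, ?_, ?_⟩
  · intro t κ _ _ φ' v0 hpole
    exact lift_chart p B M F y π0 Θ h0 n0 c μ hPS0.hA hPT π hcomp t (f t) (hfA t) (hf0 t) (hfπ t)
      (hker t) (fun κ _ _ φ hφ v h1 h2 => hv2 t κ φ (hfA t) hφ v h1 h2) (M'.A t) (M'.x t)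
      (hA't t) (hx't t) (ho.le t) κ φ' v0 hpole
  · intro a t
    obtain ⟨w, h0, h1, h2, h3⟩ := hFn a t
    change algebraMap L N (g a) = _ at h3
    rw [hA', hx']
    refine ⟨pq π w, pq_ne π h0 (hAQ t h1) (hAQ t h2), pq_mem π (hAQ t) h1, ?_, ?_⟩
    · rw [← pq_inv π h0 (hAQ t h1) (hAQ t h2)]
      exact pq_mem π (hAQ t) h2
    · have h4 : ∀ i, M.x t i ^ Γ a i ∈ Q := fun i =>
        zpow_mem_of (hAQ t (M.xA t i)) (Or.inr (hPT.xQ t i))
      change algebraMap L K (g a) = _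
      rw [← hcomp _ (hgQ a), h3, pq_mul π (hAQ t h1) (Q.prod_mem fun i _ => h4 i),
        pq_prod π _ _ fun i _ => h4 i]
      congr 1
      refine Finset.prod_congr rfl fun i _ => ?_
      exact pq_zpow π (M.x0 t i) (hAQ t (M.xA t i)) (hPT.xQ t i) _
  · intro t x
    obtain ⟨q, rfl⟩ := hsurj x
    obtain ⟨α, hα, β, hβ, hβ0, hβQ, hαβ⟩ := hLq t q q.2
    rw [hA']
    have h1 : pq π β ≠ 0 := pq_ne π hβ0 (hAQ t hβ) hβQ
    refine ⟨pq π α, pq_mem π (hAQ t) hα, pq π β, pq_mem π (hAQ t) hβ, h1, ?_⟩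
    rw [eq_mul_inv_iff_mul_eq₀ h1, ← pq_coe π q, ← pq_mul π q.2 (hAQ t hβ), hαβ]

end Pool.Agent.W369.WT
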