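import Pool.Agent.W558.WT.Stms
import Pool.Agent.W174.WA.PCut

/-!
# Restriction of a model to the divisor of `F`, relative version: the local computation
-/

set_option autoImplicit false
set_option linter.unusedVariables false
set_option linter.unusedSectionVars false

universe u

open Polynomial

namespace Pool.Agent.W369.WT

open Pool.Agent.W558 Pool.Agent.W973.CUT Pool.Agent.W973.CUT2 Pool.Agent.W177.WD
open Pool.Agent.W174.WA

/-- The exponents `c` in terms of `n0`. -/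
lemma sumc {κ : Type u} [Field κ] {I I0 : Type} [Fintype I] [Fintype I0] (p : ℕ)
    (hp : (p : κ) = 0) (c μ : I → ℤ) (n0 : I0 → ℤ) (Θ : I → I0 → ℤ)
    (ce : ∀ i, c i = ∑ i0, Θ i i0 * n0 i0 - p * μ i) (e : I → κ) :
    ∑ i, (c i : κ) * e i = ∑ i0, (n0 i0 : κ) * ∑ i, (Θ i i0 : κ) * e i := by
  have h1 : ∀ i, (c i : κ) = ∑ i0, (Θ i i0 : κ) * (n0 i0 : κ) := by
    intro i
    rw [ce i]
    push_cast
    rw [hp, zero_mul, sub_zero]
  simp only [h1, Finset.sum_mul, Finset.mul_sum]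
  rw [Finset.sum_comm]
  refine Finset.sum_congr rfl fun i0 _ => Finset.sum_congr rfl fun i _ => ?_
  ring

section chart

variable {k L N : Type u} [Field k] [Field L] [Field N] [Algebra k L] [Algebra k N]
  [Algebra L N] [IsScalarTower k L N] {T0 I0 T I : Type} [Fintype I0] [Fintype I]

/-- A logarithmic vector which is vertical and does not vanish on `f`. -/
def VT (B : LM (⊥ : Subalgebra k L) ⊤ T0 I0) (M : LM (⊥ : Subalgebra k N) ⊤ T I) (t : T) (t0 : T0)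
    (le : ∀ a ∈ B.A t0, algebraMap L N a ∈ M.A t) (Θ : I → I0 → ℤ)
    {κ : Type u} [Field κ] [Algebra k κ] (φ : M.A t →ₐ[k] κ) (f : M.A t) : Prop :=
  ∃ v1 : LT φ (M.x t), v1.D.D f ≠ 0 ∧
    (∀ a (ha : a ∈ B.A t0), v1.D.D ⟨algebraMap L N a, le a ha⟩ = 0) ∧
    ∀ i0, ∑ i, (Θ i i0 : κ) * v1.e i = 0

/-- Forget the component `y`. -/
def drp {A : Subalgebra k N} {κ : Type u} [Field κ] [Algebra k κ] {φ : A →ₐ[k] κ} {y : N}
    {x : I → N} (v : LT φ (ox y x)) : LT φ x where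
  D := v.D
  e := fun i => v.e (some i)
  hx := fun i h => v.hx (some i) h

/-- A component of the boundary over a component of the boundary. -/
lemma pole {B : LM (⊥ : Subalgebra k L) ⊤ T0 I0} {M : LM (⊥ : Subalgebra k N) ⊤ T I}
    {π : T → T0} {Θ : I → I0 → ℤ} (ov : Ovr B M π Θ) (t : T) {κ : Type u} [Field κ] [Algebra k κ]
    (φ : M.A t →ₐ[k] κ) (i : I) (hi : φ ⟨M.x t i, M.xA t i⟩ = 0) (i0 : I0) (hΘ : 0 < Θ i i0) :
    φ ⟨algebraMap L N (B.x (π t) i0), ov.le t _ (B.xA (π t) i0)⟩ = 0 := by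
  have h1 : ZE φ (∏ i', M.x t i' ^ Θ i' i0) :=
    ZE.prod _ (fun j => zpow_mem_of (M.xA t j) (Or.inl (ov.Θ0 j i0))) i
      (ZE.zpow (M.x0 t i) (M.xA t i) _ hΘ hi)
  rw [← ov.x] at h1
  exact h1.2

/-- type a -/
lemma ta (p : ℕ) [Fact p.Prime] [CharP k p] (B : LM (⊥ : Subalgebra k L) ⊤ T0 I0)
    (M : LM (⊥ : Subalgebra k N) ⊤ T I) (F : N) (Q : Subalgebra k N) (y r : T → N) (π : T → T0)
    (Θ : I → I0 → ℤ) (h0 : T0 → L) (n0 : I0 → ℤ) (c μ : I → ℤ)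
    (hPS : PAS p M F Q y (fun t => algebraMap L N (h0 (π t))) r c μ)
    (hPT : PAT p B M π Θ F Q y h0 n0 c μ) (t : T)
    (h1 : ∀ i, c i ≤ 0 ∨ (M.x t i)⁻¹ ∈ M.A t) (m0 : ∀ i, 0 ≤ -((p : ℤ) - 1) * μ i)
    (κ : Type u) [Field κ] [Algebra k κ] (φ : M.A t →ₐ[k] κ)
    (hX : (∏ i, M.x t i ^ (-c i)) * y t ^ p ∈ M.A t)
    (hY : (∏ i, M.x t i ^ (-((p : ℤ) - 1) * μ i - c i)) * y t ∈ M.A t)
    (hf : (∏ i, M.x t i ^ (-c i)) * y t ^ p -
      (∏ i, M.x t i ^ (-((p : ℤ) - 1) * μ i - c i)) * y t - algebraMap L N (h0 (π t)) ∈ M.A t)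
    (hφ : φ ⟨_, hf⟩ = 0) (v : LT φ (ox (y t) (M.x t)))
    (hv : v.e none + ∑ i, (μ i : κ) * v.e (some i) = 0)
    (hom : (∃ i0, n0 i0 < 0 ∧
      φ ⟨algebraMap L N (B.x (π t) i0), hPT.ov.le t _ (B.xA (π t) i0)⟩ = 0) →
      om v (fun o => o.elim 0 c) (hPS.hA t) = 0) :
    v.D.D ⟨_, hf⟩ = 0 ∨ VT B M t (π t) (hPT.ov.le t) Θ φ ⟨_, hf⟩ := by
  have hx0 := M.x0 t
  have hp0 : (p : κ) = 0 := Pool.Agent.W177.WD.cast_zero (k := k) p κ
  have hp2 : (2 : ℤ) ≤ p := by exact_mod_cast (Fact.out : p.Prime).two_le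
  have he : ∀ i, 0 ≤ -((p : ℤ) - 1) * μ i - c i ∨ (M.x t i)⁻¹ ∈ M.A t := by
    intro i
    rcases h1 i with h | h
    · left
      have := m0 i
      omega
    · exact Or.inr h
  have e1 : (⟨_, hf⟩ : M.A t) = ⟨_, hX⟩ - ⟨_, hY⟩ - ⟨algebraMap L N (h0 (π t)), hPS.hA t⟩ := rfl
  by_cases hc : ∃ i, φ ⟨M.x t i, M.xA t i⟩ = 0 ∧ (μ i < 0 ∨ c i < 0)
  · -- case A
    left
    obtain ⟨i, hi, hmc⟩ := hc
    have hni := not_inv (φ := φ) (hx0 i) (M.xA t i) hi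
    have hci : c i ≤ 0 := (h1 i).resolve_right hni
    obtain ⟨i0, hn0, hΘ⟩ : ∃ i0, n0 i0 < 0 ∧ 0 < Θ i i0 := by
      rcases hPT.ri t i hni hmc with h | h
      · exact h
      · omega
    have hom0 := hom ⟨i0, hn0, pole hPT.ov t φ i hi i0 hΘ⟩
    have hpos : 0 < -((p : ℤ) - 1) * μ i - c i := by
      rcases hmc with h | h
      · nlinarith
      · have := m0 i
        omega
    have hz : ZE φ ((∏ i, M.x t i ^ (-((p : ℤ) - 1) * μ i - c i)) * y t) := by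
      refine ZE.mul_left (ZE.prod _ (fun j => zpow_mem_of (M.xA t j) (he j)) i ?_) (hPS.yA t)
      exact ZE.zpow (hx0 i) (M.xA t i) _ hpos hi
    have hz' : φ ⟨_, hY⟩ = 0 := hz.2
    have e2 : φ ⟨_, hX⟩ = φ ⟨algebraMap L N (h0 (π t)), hPS.hA t⟩ := by
      rw [e1, map_sub, map_sub, hz', sub_zero, sub_eq_zero] at hφ
      exact hφ
    rw [da p M t (y t) (algebraMap L N (h0 (π t))) c μ (hPS.yA t) (hPS.hA t) m0 h1 κ φ v hX hY hf,
      hz', e2]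
    rw [om, Fintype.sum_option] at hom0
    simp only [Option.elim_none, Option.elim_some, Int.cast_zero, zero_mul, zero_add] at hom0
    linear_combination -hom0
  · -- case B
    right
    push Not at hc
    have hm : ∀ i, φ ⟨M.x t i, M.xA t i⟩ = 0 → μ i = 0 ∧ c i = 0 := by
      intro i hi
      have h3 := hc i hi
      have h4 := hPS.m0 i
      have h5 : c i ≤ 0 := (h1 i).resolve_right (not_inv (φ := φ) (hx0 i) (M.xA t i) hi)
      omega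
    have hU : UN φ (∏ i, M.x t i ^ (-((p : ℤ) - 1) * μ i - c i)) := by
      refine UN.prod _ _ fun i _ => UN.zpow (hx0 i) (M.xA t i) _ (he i) fun hi => ?_
      rw [(hm i hi).1, (hm i hi).2]
      ring
    rcases hPT.vt t κ φ with hy | ⟨D, hDy, hDx, hDB⟩
    · obtain ⟨w, hv1, hv2, hv3⟩ := hPT.vl t κ φ
      have hwh : w.D.D ⟨algebraMap L N (h0 (π t)), hPS.hA t⟩ = 0 := hv1 _ (hPT.hA (π t))
      have hwc : ∑ i, (c i : κ) * w.e (some i) = 0 := by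
        rw [sumc p hp0 c μ n0 Θ hPT.ce]
        refine Finset.sum_eq_zero fun i0 _ => ?_
        rw [hv2 i0, mul_zero]
      refine ⟨drp w, ?_, hv1, hv2⟩
      have hU2 : φ ⟨_, hY⟩ ≠ 0 := (hU.mul (UN.of_inv (hPS.y0 t) (hPS.yA t) hy)).2
      change w.D.D ⟨_, hf⟩ ≠ 0
      rw [da p M t (y t) (algebraMap L N (h0 (π t))) c μ (hPS.yA t) (hPS.hA t) m0 h1 κ φ w hX hY
        hf, hwh, hwc, sub_zero, sub_zero, hv3, mul_zero, neg_zero, mul_one, zero_sub]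
      exact neg_ne_zero.2 hU2
    · have hDh : D.D ⟨algebraMap L N (h0 (π t)), hPS.hA t⟩ = 0 := hDB _ (hPT.hA (π t))
      refine ⟨⟨D, fun _ => 0, fun i _ => by rw [mul_zero]; exact hDx i⟩, ?_, hDB, fun i0 => by simp⟩
      change D.D ⟨_, hf⟩ ≠ 0
      have hLx : ∀ i, LG D (M.x t i) 0 := fun i => ⟨M.xA t i, by rw [hDx i, mul_zero]⟩
      have hc' : ∀ i, 0 ≤ -c i ∨ (M.x t i)⁻¹ ∈ M.A t := by
        intro i
        rcases h1 i with h | h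
        · left; omega
        · exact Or.inr h
      have L1 : LG D (∏ i, M.x t i ^ (-c i)) (∑ i, ((-c i : ℤ) : κ) * 0) :=
        LG.prod _ _ _ fun i _ => (hLx i).zpow (hx0 i) _ (hc' i)
      have L2 : LG D (∏ i, M.x t i ^ (-((p : ℤ) - 1) * μ i - c i))
          (∑ i, ((-((p : ℤ) - 1) * μ i - c i : ℤ) : κ) * 0) :=
        LG.prod _ _ _ fun i _ => (hLx i).zpow (hx0 i) _ (he i)
      simp only [mul_zero, Finset.sum_const_zero] at L1 L2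
      have hyp : D.D (⟨y t, hPS.yA t⟩ ^ p) = 0 := by
        rw [D_pow, hp0, zero_mul]
      have e2 : (⟨_, hX⟩ : M.A t) = ⟨_, L1.mem⟩ * ⟨y t, hPS.yA t⟩ ^ p := rfl
      have e3 : (⟨_, hY⟩ : M.A t) = ⟨_, L2.mem⟩ * ⟨y t, hPS.yA t⟩ := rfl
      have hU2 : φ ⟨_, L2.mem⟩ ≠ 0 := hU.2
      rw [e1, map_sub, map_sub, hDh, e2, e3, D.leib, D.leib, hyp, L1.eq, L2.eq, mul_zero, mul_zero,
        mul_zero, add_zero]
      intro h0
      have h7 : φ ⟨_, L2.mem⟩ * D.D ⟨y t, hPS.yA t⟩ = 0 := by linear_combination -h0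
      exact mul_ne_zero hU2 hDy h7

/-- type b -/
lemma tb (p : ℕ) [Fact p.Prime] [CharP k p] (B : LM (⊥ : Subalgebra k L) ⊤ T0 I0)
    (M : LM (⊥ : Subalgebra k N) ⊤ T I) (F : N) (Q : Subalgebra k N) (y r : T → N) (π : T → T0)
    (Θ : I → I0 → ℤ) (h0 : T0 → L) (n0 : I0 → ℤ) (c μ : I → ℤ)
    (hPS : PAS p M F Q y (fun t => algebraMap L N (h0 (π t))) r c μ)
    (hPT : PAT p B M π Θ F Q y h0 n0 c μ) (t : T)
    (h1 : ∀ i, 0 ≤ c i ∨ (M.x t i)⁻¹ ∈ M.A t) (h2 : (y t)⁻¹ ∈ M.A t)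
    (m0 : ∀ i, 0 ≤ -((p : ℤ) - 1) * μ i)
    (κ : Type u) [Field κ] [Algebra k κ] (φ : M.A t →ₐ[k] κ)
    (hX : (∏ i, M.x t i ^ c i) * (y t)⁻¹ ^ p ∈ M.A t)
    (hY : (∏ i, M.x t i ^ (-((p : ℤ) - 1) * μ i)) * ((y t)⁻¹ ^ p * y t) ∈ M.A t)
    (hf : 1 - (∏ i, M.x t i ^ (-((p : ℤ) - 1) * μ i)) * ((y t)⁻¹ ^ p * y t) -
      (∏ i, M.x t i ^ c i) * (y t)⁻¹ ^ p * algebraMap L N (h0 (π t)) ∈ M.A t)
    (hφ : φ ⟨_, hf⟩ = 0) (v : LT φ (ox (y t) (M.x t)))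
    (hv : v.e none + ∑ i, (μ i : κ) * v.e (some i) = 0)
    (hom : (∃ i0, n0 i0 < 0 ∧
      φ ⟨algebraMap L N (B.x (π t) i0), hPT.ov.le t _ (B.xA (π t) i0)⟩ = 0) →
      om v (fun o => o.elim 0 c) (hPS.hA t) = 0) :
    v.D.D ⟨_, hf⟩ = 0 ∨ VT B M t (π t) (hPT.ov.le t) Θ φ ⟨_, hf⟩ := by
  have hx0 := M.x0 t
  have hp0 : (p : κ) = 0 := Pool.Agent.W177.WD.cast_zero (k := k) p κ
  have hp2 : (2 : ℤ) ≤ p := by exact_mod_cast (Fact.out : p.Prime).two_le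
  have e1 : (⟨_, hf⟩ : M.A t) = 1 - ⟨_, hY⟩ - ⟨_, hX⟩ *
    ⟨algebraMap L N (h0 (π t)), hPS.hA t⟩ := rfl
  have hUy : UN φ ((y t)⁻¹ ^ p * y t) :=
    (UN.pow (UN.of_inv (inv_ne_zero (hPS.y0 t)) h2 (by rw [inv_inv]; exact hPS.yA t)) p).mul
      (UN.of_inv (hPS.y0 t) (hPS.yA t) h2)
  by_cases hc : ∃ i, φ ⟨M.x t i, M.xA t i⟩ = 0 ∧ μ i < 0
  · -- case 2
    left
    obtain ⟨i, hi, hmi⟩ := hc
    have hpos : 0 < -((p : ℤ) - 1) * μ i := by nlinarith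
    have hz : ZE φ ((∏ i, M.x t i ^ (-((p : ℤ) - 1) * μ i)) * ((y t)⁻¹ ^ p * y t)) := by
      refine ZE.mul_left (ZE.prod _ (fun j => zpow_mem_of (M.xA t j) (Or.inl (m0 j))) i ?_) hUy.1
      exact ZE.zpow (hx0 i) (M.xA t i) _ hpos hi
    have hz' : φ ⟨_, hY⟩ = 0 := hz.2
    have e2 : φ ⟨_, hX⟩ * φ ⟨algebraMap L N (h0 (π t)), hPS.hA t⟩ = 1 := by
      rw [e1, map_sub, map_sub, map_one, map_mul, hz', sub_zero, sub_eq_zero] at hφ
      exact hφ.symm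
    have hcj : c i ≤ 0 := by
      by_contra hcon
      push Not at hcon
      have h3 : ZE φ ((∏ i, M.x t i ^ c i) * (y t)⁻¹ ^ p) := by
        refine ZE.mul_left (ZE.prod _ (fun j => zpow_mem_of (M.xA t j) (h1 j)) i ?_)
          ((M.A t).pow_mem h2 p)
        exact ZE.zpow (hx0 i) (M.xA t i) _ hcon hi
      have h4 : φ ⟨_, hX⟩ = 0 := h3.2
      rw [h4, zero_mul] at e2
      exact zero_ne_one e2
    obtain ⟨i0, hn0, hΘ⟩ : ∃ i0, n0 i0 < 0 ∧ 0 < Θ i i0 := by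
      rcases hPT.ri t i (not_inv (φ := φ) (hx0 i) (M.xA t i) hi) (Or.inl hmi) with h | h
      · exact h
      · omega
    have hom0 := hom ⟨i0, hn0, pole hPT.ov t φ i hi i0 hΘ⟩
    rw [db p M t (y t) (algebraMap L N (h0 (π t))) c μ (hPS.y0 t) (hPS.yA t) (hPS.hA t) m0 h1 h2 κ
      φ v hX hY hf, hz', hom0]
    ring
  · -- case 1
    right
    push Not at hc
    have hm : ∀ i, φ ⟨M.x t i, M.xA t i⟩ = 0 → μ i = 0 := by
      intro i hi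
      have h3 := hc i hi
      have h4 := hPS.m0 i
      omega
    have hU : UN φ (∏ i, M.x t i ^ (-((p : ℤ) - 1) * μ i)) := by
      refine UN.prod _ _ fun i _ => UN.zpow (hx0 i) (M.xA t i) _ (Or.inl (m0 i)) fun hi => ?_
      rw [hm i hi]
      ring
    obtain ⟨w, hv1, hv2, hv3⟩ := hPT.vl t κ φ
    have hwh : w.D.D ⟨algebraMap L N (h0 (π t)), hPS.hA t⟩ = 0 := hv1 _ (hPT.hA (π t))
    have hwc : ∑ i, (c i : κ) * w.e (some i) = 0 := by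
      rw [sumc p hp0 c μ n0 Θ hPT.ce]
      refine Finset.sum_eq_zero fun i0 _ => ?_
      rw [hv2 i0, mul_zero]
    refine ⟨drp w, ?_, hv1, hv2⟩
    have hU2 : φ ⟨_, hY⟩ ≠ 0 := (hU.mul hUy).2
    have hom0 : om w (fun o => o.elim 0 c) (hPS.hA t) = 0 := by
      rw [om, Fintype.sum_option]
      simp only [Option.elim_none, Option.elim_some, Int.cast_zero, zero_mul, zero_add]
      rw [hwh, hwc, mul_zero, add_zero]
    change w.D.D ⟨_, hf⟩ ≠ 0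
    rw [db p M t (y t) (algebraMap L N (h0 (π t))) c μ (hPS.y0 t) (hPS.yA t) (hPS.hA t) m0 h1 h2 κ
      φ w hX hY hf, hom0, hv3, mul_one, mul_zero, sub_zero]
    exact neg_ne_zero.2 hU2

/-- The local equation of the divisor. -/
lemma chart2 (p : ℕ) [Fact p.Prime] [CharP k p] (B : LM (⊥ : Subalgebra k L) ⊤ T0 I0)
    (M : LM (⊥ : Subalgebra k N) ⊤ T I) (F : N) (Q : Subalgebra k N) (y r : T → N) (π : T → T0)
    (Θ : I → I0 → ℤ) (h0 : T0 → L) (n0 : I0 → ℤ) (c μ : I → ℤ)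
    (hPS : PAS p M F Q y (fun t => algebraMap L N (h0 (π t))) r c μ)
    (hPT : PAT p B M π Θ F Q y h0 n0 c μ) (hF : Fin2 M y c) (t : T) :
    ∃ f ∈ M.A t, ∃ u, u ≠ 0 ∧ u ∈ Q ∧ u⁻¹ ∈ Q ∧ F = u * f ∧
      (∀ (κ : Type u) [Field κ] [Algebra k κ] (φ : M.A t →ₐ[k] κ) (hf : f ∈ M.A t),
        φ ⟨f, hf⟩ = 0 → ∃ D : TV φ, D.D ⟨f, hf⟩ ≠ 0 ∧
          ∀ i, φ ⟨M.x t i, M.xA t i⟩ = 0 → D.D ⟨M.x t i, M.xA t i⟩ = 0) ∧
      (∀ (κ : Type u) [Field κ] [Algebra k κ] (φ : M.A t →ₐ[k] κ) (hf : f ∈ M.A t),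
        φ ⟨f, hf⟩ = 0 → ∀ v : LT φ (ox (y t) (M.x t)),
          v.e none + ∑ i, (μ i : κ) * v.e (some i) = 0 →
          ((∃ i0, n0 i0 < 0 ∧
            φ ⟨algebraMap L N (B.x (π t) i0), hPT.ov.le t _ (B.xA (π t) i0)⟩ = 0) →
            om v (fun o => o.elim 0 c) (hPS.hA t) = 0) →
          v.D.D ⟨f, hf⟩ = 0 ∨ VT B M t (π t) (hPT.ov.le t) Θ φ ⟨f, hf⟩) := by
  have hx0 := M.x0 t
  have hy0 := hPS.y0 t
  have hp2 : (2 : ℤ) ≤ p := by exact_mod_cast (Fact.out : p.Prime).two_le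
  have m0 : ∀ i, 0 ≤ -((p : ℤ) - 1) * μ i := by
    intro i
    have := hPS.m0 i
    nlinarith
  have hxQ : ∀ i, M.x t i ∈ Q := fun i => hPS.AQ t (M.xA t i)
  have hyQ : y t ∈ Q := hPS.AQ t (hPS.yA t)
  have hz : ∀ (n : ℤ) i, M.x t i ^ n ∈ Q := fun n i =>
    zpow_mem_of (hxQ i) (Or.inr (hPS.xQ t i))
  have hP0 : ∀ m : I → ℤ, ∏ i, M.x t i ^ m i ≠ 0 := fun m =>
    Finset.prod_ne_zero_iff.2 fun i _ => zpow_ne_zero _ (hx0 i)
  have hPQ : ∀ m : I → ℤ, ∏ i, M.x t i ^ m i ∈ Q := fun m => Q.prod_mem fun i _ => hz _ i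
  have hPQ' : ∀ m : I → ℤ, (∏ i, M.x t i ^ m i)⁻¹ ∈ Q := fun m => by
    rw [← Finset.prod_inv_distrib]
    refine Q.prod_mem fun i _ => ?_
    rw [← zpow_neg]
    exact hz _ i
  have hneg : ∀ m : I → ℤ, ∏ i, M.x t i ^ (-m i) = (∏ i, M.x t i ^ m i)⁻¹ := fun m => by
    rw [← Finset.prod_inv_distrib]
    exact Finset.prod_congr rfl fun i _ => zpow_neg _ _
  have hsub : ∀ m m' : I → ℤ, ∏ i, M.x t i ^ (m i - m' i) =
      (∏ i, M.x t i ^ m i) * (∏ i, M.x t i ^ m' i)⁻¹ := fun m m' => by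
    rw [← hneg, ← Finset.prod_mul_distrib]
    refine Finset.prod_congr rfl fun i _ => ?_
    rw [← zpow_add₀ (hx0 i), sub_eq_add_neg]
  have heq := hPS.eq t
  rcases hF t with h1 | ⟨h1, h2⟩
  · -- first case
    have hXA : (∏ i, M.x t i ^ (-c i)) * y t ^ p ∈ M.A t := by
      refine (M.A t).mul_mem ((M.A t).prod_mem fun i _ => ?_) ((M.A t).pow_mem (hPS.yA t) p)
      refine zpow_mem_of (M.xA t i) ?_
      rcases h1 i with h | h
      · left; omega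
      · exact Or.inr h
    have hYA : (∏ i, M.x t i ^ (-((p : ℤ) - 1) * μ i - c i)) * y t ∈ M.A t := by
      refine (M.A t).mul_mem ((M.A t).prod_mem fun i _ => ?_) (hPS.yA t)
      refine zpow_mem_of (M.xA t i) ?_
      rcases h1 i with h | h
      · left
        have := m0 i
        omega
      · exact Or.inr h
    refine ⟨(∏ i, M.x t i ^ (-c i)) * y t ^ p -
      (∏ i, M.x t i ^ (-((p : ℤ) - 1) * μ i - c i)) * y t - algebraMap L N (h0 (π t)),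
      (M.A t).sub_mem ((M.A t).sub_mem hXA hYA) (hPS.hA t),
      (∏ i, M.x t i ^ ((p : ℤ) * μ i)) * ∏ i, M.x t i ^ c i,
      mul_ne_zero (hP0 _) (hP0 _), Q.mul_mem (hPQ _) (hPQ _), ?_, ?_, ?_, ?_⟩
    · rw [mul_inv]
      exact Q.mul_mem (hPQ' _) (hPQ' _)
    · rw [hneg, hsub (fun i => -((p : ℤ) - 1) * μ i) c]
      have := hP0 c
      conv_lhs => rw [heq]
      rw [mul_assoc]
      congr 1
      field_simp
    · intro κ _ _ φ hf hφ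
      exact va p M F Q y _ r c μ hPS t h1 m0 κ φ hXA hYA hf hφ
    · intro κ _ _ φ hf hφ v hv hom
      exact ta p B M F Q y r π Θ h0 n0 c μ hPS hPT t h1 m0 κ φ hXA hYA hf hφ v hv hom
  · -- second case
    have hXA : (∏ i, M.x t i ^ (c i)) * (y t)⁻¹ ^ p ∈ M.A t :=
      (M.A t).mul_mem ((M.A t).prod_mem fun i _ => zpow_mem_of (M.xA t i) (h1 i))
        ((M.A t).pow_mem h2 p)
    have hYA : (∏ i, M.x t i ^ (-((p : ℤ) - 1) * μ i)) * ((y t)⁻¹ ^ p * y t) ∈ M.A t :=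
      (M.A t).mul_mem ((M.A t).prod_mem fun i _ => zpow_mem_of (M.xA t i) (Or.inl (m0 i)))
        ((M.A t).mul_mem ((M.A t).pow_mem h2 p) (hPS.yA t))
    refine ⟨1 - (∏ i, M.x t i ^ (-((p : ℤ) - 1) * μ i)) * ((y t)⁻¹ ^ p * y t) -
      (∏ i, M.x t i ^ (c i)) * (y t)⁻¹ ^ p * algebraMap L N (h0 (π t)),
      (M.A t).sub_mem ((M.A t).sub_mem (M.A t).one_mem hYA) ((M.A t).mul_mem hXA (hPS.hA t)),
      (∏ i, M.x t i ^ ((p : ℤ) * μ i)) * y t ^ p,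
      mul_ne_zero (hP0 _) (pow_ne_zero _ hy0), Q.mul_mem (hPQ _) (Q.pow_mem hyQ p), ?_, ?_, ?_, ?_⟩
    · rw [mul_inv, ← inv_pow]
      exact Q.mul_mem (hPQ' _) (Q.pow_mem (hPS.yQ t) p)
    · conv_lhs => rw [heq]
      have := pow_ne_zero p hy0
      rw [mul_assoc]
      congr 1
      rw [inv_pow]
      field_simp
    · intro κ _ _ φ hf hφ
      exact vb p M F Q y _ r c μ hPS t h1 h2 m0 κ φ hXA hYA hf hφ
    · intro κ _ _ φ hf hφ v hv hom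
      exact tb p B M F Q y r π Θ h0 n0 c μ hPS hPT t h1 h2 m0 κ φ hXA hYA hf hφ v hv hom

end chart

end Pool.Agent.W369.WT
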